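import Mathlib
import Pool.Agent.Y298.GA.Stm
import Pool.Agent.TH136.Tip.Push

/-!
# Transfer of the area by a map with small distortion, for families (S_TR)
(after `Pool.Agent.Y274.CA.Tr`)
-/

set_option autoImplicit false

open Set Filter Metric MeasureTheory Topology

namespace Pool.Agent.Y363.GA

open Pool.Agent.TH279.MD Pool.Agent.Y298.GA

theorem tr : S_TR := by
  intro d c₁ r κ κ₀ h₀ w ρ n D hd hρ H hκ hD hDρ hGd' hdist
  set G := GG d h₀ n with hG
  have hGd : DifferentiableOn ℂ G (ball w ρ) := hGd'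
  have hGa : ∀ x ∈ ball w ρ, DifferentiableAt ℂ G x := fun x hx =>
    hGd.differentiableAt (isOpen_ball.mem_nhds hx)
  have hD0 : 0 < ‖D‖ := norm_pos_iff.2 hD
  have hwU : w ∈ ball w ρ := mem_ball_self hρ
  have h2 : ∀ x ∈ ball w ρ, ∀ y ∈ ball w ρ,
      ‖(G y - G x) - D * (y - x)‖ ≤ 1 / 4 * ‖D‖ * ‖y - x‖ := by
    intro x hx y hy
    have hb : ∀ z ∈ ball w ρ, ‖deriv (fun z => G z - D * z) z‖ ≤ 1 / 4 * ‖D‖ := by
      intro z hz
      have h1 : HasDerivAt (fun z => G z - D * z) (deriv G z - D * 1) z :=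
        (hGa z hz).hasDerivAt.sub ((hasDerivAt_id z).const_mul D)
      rw [h1.deriv, mul_one]
      exact hdist z hz
    have h := Convex.norm_image_sub_le_of_norm_deriv_le (f := fun z => G z - D * z)
      (C := 1 / 4 * ‖D‖) (s := ball w ρ)
      (fun z hz => (hGa z hz).sub (differentiableAt_id.const_mul D)) hb (convex_ball w ρ) hx hy
    have e : (G y - G x) - D * (y - x) = (G y - D * y) - (G x - D * x) := by ring
    rw [e]
    exact h
  have hup : ∀ x ∈ ball w ρ, ∀ y ∈ ball w ρ, ‖G y - G x‖ ≤ 5 / 4 * ‖D‖ * ‖y - x‖ := by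
    intro x hx y hy
    have h := h2 x hx y hy
    have h3 : ‖G y - G x‖ ≤ ‖(G y - G x) - D * (y - x)‖ + ‖D * (y - x)‖ := by
      have := norm_add_le ((G y - G x) - D * (y - x)) (D * (y - x))
      rwa [sub_add_cancel] at this
    rw [norm_mul] at h3
    linarith
  have hlow : ∀ x ∈ ball w ρ, ∀ y ∈ ball w ρ, 3 / 4 * ‖D‖ * ‖y - x‖ ≤ ‖G y - G x‖ := by
    intro x hx y hy
    have h := h2 x hx y hy
    have h3 : ‖D * (y - x)‖ ≤ ‖G y - G x‖ + ‖(G y - G x) - D * (y - x)‖ := by
      have := norm_sub_le (G y - G x) ((G y - G x) - D * (y - x))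
      rwa [sub_sub_cancel] at this
    rw [norm_mul] at h3
    linarith
  have hinj : InjOn G (ball w ρ) := by
    intro x hx y hy h
    have h3 := hlow x hx y hy
    rw [h, sub_self, norm_zero] at h3
    have h4 : ‖y - x‖ ≤ 0 := by
      by_contra hcon
      push Not at hcon
      have : 0 < 3 / 4 * ‖D‖ * ‖y - x‖ := by positivity
      linarith
    have h5 : y - x = 0 := norm_le_zero_iff.1 h4
    exact (sub_eq_zero.1 h5).symm
  have hder : ∀ x ∈ ball w ρ, 3 / 4 * ‖D‖ ≤ ‖deriv G x‖ := by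
    intro x hx
    have h := hdist x hx
    have h3 : ‖D‖ ≤ ‖deriv G x‖ + ‖deriv G x - D‖ := by
      have := norm_sub_le (deriv G x) (deriv G x - D)
      rwa [sub_sub_cancel] at this
    linarith
  set T' : ℝ := 3 / 16 * ‖D‖ * ρ with hT'
  have hT0 : 0 < T' := by positivity
  have hT1 : T' ≤ 1 := by
    rw [hT']
    nlinarith
  have hsurj : ball (G w) T' ⊆ G '' closedBall w (ρ / 2) := by
    have hcl : closedBall w (ρ / 2) ⊆ ball w ρ := closedBall_subset_ball (by linarith)
    have h := DiffContOnCl.ball_subset_image_closedBall (f := G) (z₀ := w) (r := ρ / 2)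
      (ε := 3 / 8 * ‖D‖ * ρ)
      (DifferentiableOn.diffContOnCl (hGd.mono (closure_ball_subset_closedBall.trans hcl)))
      (by positivity) ?_ ?_
    · have e : 3 / 8 * ‖D‖ * ρ / 2 = T' := by
        rw [hT']
        ring
      rwa [e] at h
    · intro z hz
      have hzU : z ∈ ball w ρ := hcl (sphere_subset_closedBall hz)
      have h3 := hlow w hwU z hzU
      rw [mem_sphere_iff_norm.1 hz] at h3
      linarith
    · have h3 : ∀ᶠ z in 𝓝[≠] w, G z ≠ G w := by
        filter_upwards [self_mem_nhdsWithin, nhdsWithin_le_nhds (isOpen_ball.mem_nhds hwU)] with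
          z hz1 hz2 h
        exact hz1 (hinj hz2 hwU h)
      exact h3.frequently.filter_mono nhdsWithin_le_nhds
  set g : ℂ → ℂ := Function.invFunOn G (ball w ρ) with hgd
  have hg : ∀ z ∈ ball (G w) T', g z ∈ ball w ρ ∧ G (g z) = z := by
    intro z hz
    obtain ⟨x, hx, hxz⟩ := hsurj hz
    have hxU : x ∈ ball w ρ := closedBall_subset_ball (by linarith) hx
    exact ⟨Function.invFunOn_mem ⟨x, hxU, hxz⟩, Function.invFunOn_eq ⟨x, hxU, hxz⟩⟩
  have hcont : ∀ z ∈ ball (G w) T', ContinuousAt g z := by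
    have hL : LipschitzOnWith (Real.toNNReal (4 / (3 * ‖D‖))) g (ball (G w) T') := by
      refine LipschitzOnWith.of_dist_le_mul fun x hx y hy => ?_
      rw [Real.coe_toNNReal _ (by positivity), dist_eq_norm, dist_eq_norm]
      have h3 := hlow (g y) (hg y hy).1 (g x) (hg x hx).1
      rw [(hg x hx).2, (hg y hy).2] at h3
      rw [div_mul_eq_mul_div, le_div_iff₀ (by positivity)]
      linarith
    exact fun z hz => hL.continuousOn.continuousAt (isOpen_ball.mem_nhds hz)
  have hgder : ∀ z ∈ ball (G w) T', HasDerivAt g (deriv G (g z))⁻¹ z := by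
    intro z hz
    refine HasDerivAt.of_local_left_inverse (hcont z hz) (hGa _ (hg z hz).1).hasDerivAt ?_ ?_
    · intro h
      have h3 := hder _ (hg z hz).1
      rw [h, norm_zero] at h3
      have : 0 < 3 / 4 * ‖D‖ := by positivity
      linarith
    · filter_upwards [isOpen_ball.mem_nhds hz] with y hy using (hg y hy).2
  have hκ0 : 0 ≤ κ₀ := (norm_nonneg _).trans (H.slow w hwU 0 (mem_ball_self (by norm_num)))
  have hCv : Cv c₁ r κ (G w) T' (fun v z => h₀ (g v) z) := by
    refine ⟨?_, fun v hv z hz => H.near _ (hg v hv).1 z hz, fun v hv z hz =>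
      H.vert _ (hg v hv).1 z hz, fun v hv z hz => ?_⟩
    · rintro ⟨v, z⟩ ⟨hv, hz⟩
      have h3 : DifferentiableAt ℂ (fun p : ℂ × ℂ => (g p.1, p.2)) (v, z) := by
        have h4 : DifferentiableAt ℂ (fun p : ℂ × ℂ => g p.1) (v, z) :=
          DifferentiableAt.comp (f := fun p : ℂ × ℂ => p.1) (v, z)
            (hgder v hv).differentiableAt differentiableAt_fst
        exact h4.prodMk differentiableAt_snd
      have h5 : DifferentiableAt ℂ (fun p : ℂ × ℂ => h₀ p.1 p.2) (g v, z) :=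
        H.at (hg v hv).1 hz
      exact (DifferentiableAt.comp (f := fun p : ℂ × ℂ => (g p.1, p.2)) (v, z) h5
        h3).differentiableWithinAt
    · have h3 : HasDerivAt (fun v' => h₀ (g v') z)
          (deriv (fun v' => h₀ v' z) (g v) * (deriv G (g v))⁻¹) v :=
        (H.diff1 (hg v hv).1 hz).hasDerivAt.comp v (hgder v hv)
      rw [h3.deriv, norm_mul, norm_inv]
      have h4 := H.slow _ (hg v hv).1 z hz
      have h5 := hder _ (hg v hv).1
      have h6 : 0 < ‖deriv G (g v)‖ := lt_of_lt_of_le (by positivity) h5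
      rw [← div_eq_mul_inv, div_le_iff₀ h6]
      have hκ' : 0 ≤ κ := by
        by_contra hcon
        push Not at hcon
        have : κ * ‖D‖ < 0 := mul_neg_of_neg_of_pos hcon hD0
        linarith
      calc ‖deriv (fun v' => h₀ v' z) (g v)‖ ≤ κ₀ := h4
        _ ≤ κ * (3 / 4 * ‖D‖) := by linarith
        _ ≤ κ * ‖deriv G (g v)‖ := mul_le_mul_of_nonneg_left h5 hκ'
  have hSS : volume (BB d (fun v z => h₀ (g v) z) ∩ ball (G w) (T' / 2)) ≤ SS d c₁ r κ := by
    unfold SS
    exact le_iSup_of_le (G w) (le_iSup_of_le T' (le_iSup_of_le (fun v z => h₀ (g v) z)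
      (le_iSup_of_le ⟨hT0, hT1, hCv⟩ le_rfl)))
  set E : Set ℂ := BB d h₀ ∩ closedBall w (ρ / 16) with hE
  have hcl16 : closedBall w (ρ / 16) ⊆ ball w ρ := closedBall_subset_ball (by linarith)
  have hEU : E ⊆ ball w ρ := fun x hx => hcl16 hx.2
  have himg : G '' E ⊆ BB d (fun v z => h₀ (g v) z) ∩ ball (G w) (T' / 2) := by
    rintro _ ⟨x, ⟨hxB, hxb⟩, rfl⟩
    have hxU := hcl16 hxb
    have h3 : G x ∈ ball (G w) (T' / 2) := by
      rw [mem_ball_iff_norm]
      have h4 := hup w hwU x hxU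
      have h5 := mem_closedBall_iff_norm.1 hxb
      have h6 : 5 / 4 * ‖D‖ * ‖x - w‖ ≤ 5 / 4 * ‖D‖ * (ρ / 16) :=
        mul_le_mul_of_nonneg_left h5 (by positivity)
      have h7 : 0 < ‖D‖ * ρ := by positivity
      rw [hT']
      nlinarith
    refine ⟨fun j => ?_, h3⟩
    have h4 : G x ∈ ball (G w) T' := ball_subset_ball (by linarith) h3
    have h5 : g (G x) = x := hinj (hg _ h4).1 hxU (hg _ h4).2
    have h6 : GG d (fun v z => h₀ (g v) z) j (G x) = GG d h₀ (j + n) x := by
      rw [GG_add]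
      have e1 : F d (fun v z => h₀ (g v) z) (G x) = F d h₀ x := by
        funext z
        show z ^ d + h₀ (g (G x)) z = z ^ d + h₀ x z
        rw [h5]
      show (F d (fun v z => h₀ (g v) z) (G x))^[j] (G x) = _
      rw [e1]
    rw [h6]
    exact hxB _
  have hEm : MeasurableSet E := (H.isClosed d isClosed_closedBall hcl16).measurableSet
  have h3 := lintegral_abs_det_fderiv_eq_addHaar_image (volume : Measure ℂ) hEm (f := G)
    (f' := fun z => (ContinuousLinearMap.toSpanSingleton ℂ (deriv G z)).restrictScalars ℝ)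
    (fun z hz => ((hGa z (hEU hz)).hasDerivAt.hasFDerivAt.restrictScalars ℝ).hasFDerivWithinAt)
    (hinj.mono hEU)
  have h4 : ENNReal.ofReal (9 / 16 * ‖D‖ ^ 2) * volume E ≤ SS d c₁ r κ := by
    calc ENNReal.ofReal (9 / 16 * ‖D‖ ^ 2) * volume E
        = ∫⁻ x in E, ENNReal.ofReal (9 / 16 * ‖D‖ ^ 2) := (setLIntegral_const _ _).symm
      _ ≤ ∫⁻ x in E, ENNReal.ofReal |((ContinuousLinearMap.toSpanSingleton ℂ
            (deriv G x)).restrictScalars ℝ).det| := by
          refine setLIntegral_mono' hEm fun x hx => ENNReal.ofReal_le_ofReal ?_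
          rw [Pool.Agent.H713R2.det_mul_real, abs_of_nonneg (by positivity)]
          have h5 := hder x (hEU hx)
          nlinarith
      _ = volume (G '' E) := h3
      _ ≤ volume (BB d (fun v z => h₀ (g v) z) ∩ ball (G w) (T' / 2)) := measure_mono himg
      _ ≤ SS d c₁ r κ := hSS
  have h5 : volume E = ENNReal.ofReal (16 / (9 * ‖D‖ ^ 2)) *
      (ENNReal.ofReal (9 / 16 * ‖D‖ ^ 2) * volume E) := by
    rw [← mul_assoc, ← ENNReal.ofReal_mul (by positivity)]
    have e : 16 / (9 * ‖D‖ ^ 2) * (9 / 16 * ‖D‖ ^ 2) = 1 := by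
      field_simp
    rw [e, ENNReal.ofReal_one, one_mul]
  rw [h5]
  refine mul_le_mul' (ENNReal.ofReal_le_ofReal ?_) h4
  rw [div_le_div_iff₀ (by positivity) (by positivity)]
  nlinarith [sq_nonneg ‖D‖]

end Pool.Agent.Y363.GA
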